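import Pool.Agent.N207.CF.Prod

/-!
# All conjugates of the fibres
-/

set_option autoImplicit false
set_option linter.unusedSectionVars false

open NumberField Filter Matrix

namespace Pool.Agent.N207.CF

open Pool.Agent.Y890.MV Pool.Agent.N207.GS
open Pool.Agent.Y124 (Cov)

variable {K X : Type} [Field K] [NumberField K] [Fintype X] {n r : ℕ}

/-- **The exceptional points**: some relation between the values at all conjugates is not invariant -/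
def ExcC (U : (K →+* ℂ) → Set (X → ℂ)) (Y : (K →+* ℂ) → (X → ℂ) → Matrix (Fin n) (Fin n) ℂ)
    (θ : (K →+* ℂ) → (X → ℂ) → Fin r → ℂ) (H : (K →+* ℂ) → Set (Matrix (Fin n) (Fin n) ℂ))
    (L : Type) [Field L] [NumberField L] (io : L →+* ℂ) (k : ℕ) (ξ : Fin k → ℂ) (T : ℝ) : Set (X → K) :=
  {s | (∀ φ : K →+* ℂ, (fun j => φ (s j)) ∈ InnerM (U φ) k) ∧ ∃ R : MvPolynomial ((K →+* ℂ) × Sg n r) ℂ,
    (∀ y, R.degreeOf y ≤ k) ∧
    (∀ m, ∃ c : Fin k → 𝓞 L, (∀ i (φ : L →+* ℂ), ‖φ (c i : L)‖ ≤ T ^ (k : ℝ)) ∧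
      R.coeff m = ∑ i, ξ i * io (c i : L)) ∧
    MvPolynomial.eval (fun q : (K →+* ℂ) × Sg n r =>
      pt (Y q.1 fun j => q.1 (s j)) (θ q.1 fun j => q.1 (s j)) q.2) R = 0 ∧
    ∃ g : (K →+* ℂ) → Matrix (Fin n) (Fin n) ℂ, (∀ φ, g φ ∈ H φ) ∧
      MvPolynomial.eval (fun q : (K →+* ℂ) × Sg n r =>
        pt ((Y q.1 fun j => q.1 (s j)) * g q.1) (θ q.1 fun j => q.1 (s j)) q.2) R ≠ 0}

theorem house_le_of_map {K L : Type} [Field K] [NumberField K] [Field L] [NumberField L] (φ : K →+* L) (x : K)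
    {T : ℝ} (h : house x ≤ T) : house (φ x) ≤ T := by
  refine le_trans ?_ h
  rw [house_eq_sup', house_eq_sup']
  have h1 : ∀ ψ : L →+* ℂ, ‖ψ (φ x)‖₊ ≤ Finset.univ.sup' Finset.univ_nonempty fun ψ : K →+* ℂ => ‖ψ x‖₊ := by
    intro ψ
    exact Finset.le_sup' (fun ψ : K →+* ℂ => ‖ψ x‖₊) (Finset.mem_univ (ψ.comp φ))
  exact_mod_cast Finset.sup'_le _ _ fun ψ _ => h1 ψ

theorem main (hIrr : StmIrr) (hFib : StmFib) (hUp : StmUp) [DecidableEq X] [Nonempty X]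
    {U : (K →+* ℂ) → Set (X → ℂ)} {Y : (K →+* ℂ) → (X → ℂ) → Matrix (Fin n) (Fin n) ℂ}
    {θ : (K →+* ℂ) → (X → ℂ) → Fin r → ℂ} {H : (K →+* ℂ) → Set (Matrix (Fin n) (Fin n) ℂ)}
    (hU : ∀ φ, IsPreconnected (U φ)) (hUo : ∀ φ, IsOpen (U φ)) (hne : ∀ φ, (U φ).Nonempty)
    (hY : ∀ φ a b, AnalyticOnNhd ℂ (fun x => Y φ x a b) (U φ))
    (hθ : ∀ φ i, AnalyticOnNhd ℂ (fun x => θ φ x i) (U φ))
    (hH : ∀ φ, ∀ g ∈ H φ, ∃ S : Set (Matrix (Fin n) (Fin n) ℂ), 1 ∈ S ∧ g ∈ S ∧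
      (∀ P Q : MvPolynomial (Fin n × Fin n) ℂ,
        (∀ g ∈ S, MvPolynomial.eval (fun y => g y.1 y.2) P * MvPolynomial.eval (fun y => g y.1 y.2) Q = 0) →
        (∀ g ∈ S, MvPolynomial.eval (fun y => g y.1 y.2) P = 0) ∨
          ∀ g ∈ S, MvPolynomial.eval (fun y => g y.1 y.2) Q = 0) ∧
      ∀ h ∈ S, ∀ x ∈ U φ, pt (Y φ x * h) (θ φ x) ∈ Fib (U φ) (fn (Y φ) (θ φ)) x) :
    ∃ (ω : ℝ → ℕ) (C T₀ : ℝ), 0 ≤ C ∧ Tendsto ω atTop atTop ∧ Monotone ω ∧ ∀ T, T₀ ≤ T → 0 < ω T ∧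
      ∀ (L : Type) [Field L] [NumberField L], Module.finrank ℚ L ≤ ω T → ∀ io : L →+* ℂ,
        (∀ φ : K →+* ℂ, ∃ φ' : K →+* L, io.comp φ' = φ) → ∀ (ξ : Fin (ω T) → ℂ) (b : X → 𝓞 K),
        (∀ j, b j ≠ 0 ∧ house (b j : K) ≤ T) →
        {a : X → 𝓞 K | (∀ j, house (a j : K) ≤ T) ∧
          (fun j => (a j : K) / (b j : K)) ∈ ExcC U Y θ H L io (ω T) ξ T}.Finite ∧
        ({a : X → 𝓞 K | (∀ j, house (a j : K) ≤ T) ∧
          (fun j => (a j : K) / (b j : K)) ∈ ExcC U Y θ H L io (ω T) ξ T}.ncard : ℝ) ≤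
          C * T ^ ((Module.finrank ℚ K * Fintype.card X : ℝ) - 1 + 2 * ((ω T : ℝ)⁻¹)) := by
  classical
  obtain ⟨C, hC, hCU⟩ := hUp K X
  have hU' := prodU_conn hU
  have hUo' := prodU_open hUo
  have hne' := prodU_ne hne
  have hF' := prodF_an (f := fun φ => fn (Y φ) (θ φ)) (U := U) (fun φ => fn_an (hY φ) (hθ φ))
  obtain ⟨ω, T₀, h1, h2, h3⟩ := comp_few hU' hUo' hne' hF'
  refine ⟨ω, C, max T₀ 1, hC, h1, h2, fun T hT => ⟨(h3 T ((le_max_left _ _).trans hT)).1, ?_⟩⟩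
  have hT1 : 1 ≤ T := (le_max_right _ _).trans hT
  have hTp : 0 < T := by linarith
  obtain ⟨hk, h4⟩ := h3 T ((le_max_left _ _).trans hT)
  generalize ω T = k at hk h4 ⊢
  intro L _ _ hL io hemb ξ b hb
  obtain ⟨⟨Φs, hΦ1, hΦ2, hΦ3⟩, -, -⟩ := h4 L hL io ξ
  choose φ' hφ' using hemb
  -- the points
  have key : {a : X → 𝓞 K | (∀ j, house (a j : K) ≤ T) ∧
      (fun j => (a j : K) / (b j : K)) ∈ ExcC U Y θ H L io k ξ T} ⊆
      ⋃ Φ ∈ Φs, {a : X → 𝓞 K | (∀ j, house (a j : K) ≤ T) ∧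
        MvPolynomial.eval (fun p => p.1 (a p.2 : K) / p.1 (b p.2 : K)) Φ = 0} := by
    rintro a ⟨ha, ha1, R, ha2, ha3, ha4, g, ha5, ha6⟩
    have hφs : ∀ (φ : K →+* ℂ) (x : K), io (φ' φ x) = φ x := fun φ x => RingHom.congr_fun (hφ' φ) x
    let t : (K →+* ℂ) × X → L := fun p => φ' p.1 ((a p.2 : K) / (b p.2 : K))
    have ht : (fun p => io (t p)) = fun p : (K →+* ℂ) × X => p.1 ((a p.2 : K) / (b p.2 : K)) := by
      funext p
      exact hφs _ _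
    have hmem : (fun p => io (t p)) ∈ (fun (s : (K →+* ℂ) × X → L) i => io (s i)) ''
        ExcI k (prodU U) (prodF fun φ => fn (Y φ) (θ φ)) (InnerM (prodU U) k) L io ξ k T := by
      refine ⟨t, ⟨?_, ?_, ?_⟩, rfl⟩
      · rintro ⟨φ, j⟩
        let ψ : 𝓞 K →+* 𝓞 L := RingOfIntegers.mapRingHom (φ' φ)
        have hψ : ∀ x : 𝓞 K, ((ψ x : 𝓞 L) : L) = φ' φ (x : K) := fun x => rfl
        refine ⟨ψ (a j), ψ (b j), ?_, ?_, ?_, ?_⟩
        · intro h0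
          have h5 := congrArg (fun x : 𝓞 L => (x : L)) h0
          simp only [hψ] at h5
          have h6 : φ' φ (b j : K) = 0 := h5
          rw [map_eq_zero] at h6
          exact (hb j).1 (RingOfIntegers.coe_eq_zero_iff.1 h6)
        · rw [hψ]
          exact house_le_of_map _ _ (ha j)
        · rw [hψ]
          exact house_le_of_map _ _ (hb j).2
        · rw [hψ, hψ]
          exact map_div₀ _ _ _
      · rw [ht]
        exact innerM_prod fun φ => ha1 φ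
      · choose c hc hc' using ha3
        refine ⟨fun l => c (Finsupp.equivFunOnFinite.symm fun y => (l y : ℕ)), fun l i φ => hc _ i φ, ?_, ?_⟩
        · rw [ht]
          rw [← Y119.PLM.sum_expM ha2] at ha4
          rw [← ha4]
          refine Finset.sum_congr rfl fun l _ => ?_
          rw [hc']
          rfl
        · choose S hS1 hSg hSirr hSfib using fun φ => hH φ (g φ) (ha5 φ)
          let V : (K →+* ℂ) → Set (Sg n r → ℂ) := fun φ =>
            (fun h => pt ((Y φ fun j => φ ((a j : K) / (b j : K))) * h) (θ φ fun j => φ ((a j : K) / (b j : K)))) ''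
              S φ
          have hxU : ∀ φ : K →+* ℂ, (fun j => φ ((a j : K) / (b j : K))) ∈ U φ := fun φ => innerM_sub _ hk (ha1 φ)
          refine ⟨{w | ∀ φ, (fun y => w (φ, y)) ∈ V φ}, hIrr _ _ V fun φ => irr_orbit _ _ (hSirr φ), ?_, ?_,
            fun q => pt ((Y q.1 fun j => q.1 ((a j : K) / (b j : K))) * g q.1)
              (θ q.1 fun j => q.1 ((a j : K) / (b j : K))) q.2, ?_, ?_⟩
          · intro φ
            refine ⟨1, hS1 φ, ?_⟩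
            rw [ht]
            simp only [mul_one]
            rfl
          · intro w hw p hp
            rw [ht]
            refine hFib (K →+* ℂ) X (Sg n r) U (fun φ => fn (Y φ) (θ φ))
              (fun φ j => φ ((a j : K) / (b j : K))) (fun φ y => w (φ, y)) hxU ?_ p ?_
            · intro φ p' hp'
              obtain ⟨h, hh, hhw⟩ := hw φ
              have h7 := hSfib φ h hh _ (hxU φ) p' hp'
              rw [← hhw]
              exact h7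
            · intro z hz
              exact hp z hz
          · intro φ
            exact ⟨g φ, hSg φ, rfl⟩
          · intro h0
            apply ha6
            rw [← Y119.PLM.sum_expM ha2, ← h0]
            refine Finset.sum_congr rfl fun l _ => ?_
            rw [hc']
    obtain ⟨Φ, hΦ, hΦ0⟩ := hΦ3 _ hmem
    rw [Set.mem_iUnion₂]
    refine ⟨Φ, hΦ, ha, ?_⟩
    rw [ht] at hΦ0
    rw [← hΦ0]
    congr 2
    funext p
    rw [map_div₀]
  have hfinΦ : ∀ Φ ∈ Φs, {a : X → 𝓞 K | (∀ j, house (a j : K) ≤ T) ∧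
      MvPolynomial.eval (fun p => p.1 (a p.2 : K) / p.1 (b p.2 : K)) Φ = 0}.Finite := fun Φ hΦ =>
    (hCU Φ (hΦ2 Φ hΦ).1 T hT1 b fun j => (hb j).1).1
  have hfin := Set.Finite.biUnion (Finset.finite_toSet Φs) hfinΦ
  refine ⟨hfin.subset key, ?_⟩
  have h5 : ({a : X → 𝓞 K | (∀ j, house (a j : K) ≤ T) ∧
      (fun j => (a j : K) / (b j : K)) ∈ ExcC U Y θ H L io k ξ T}.ncard : ℝ) ≤
      ∑ Φ ∈ Φs, ({a : X → 𝓞 K | (∀ j, house (a j : K) ≤ T) ∧
        MvPolynomial.eval (fun p => p.1 (a p.2 : K) / p.1 (b p.2 : K)) Φ = 0}.ncard : ℝ) := by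
    have h6 := (Set.ncard_le_ncard key hfin).trans (Finset.set_ncard_biUnion_le _ _)
    exact_mod_cast h6
  refine h5.trans ?_
  set N := Module.finrank ℚ K * Fintype.card X with hN
  have hN1 : 1 ≤ N := Nat.mul_pos Module.finrank_pos Fintype.card_pos
  have h7 : ∀ Φ ∈ Φs, ({a : X → 𝓞 K | (∀ j, house (a j : K) ≤ T) ∧
      MvPolynomial.eval (fun p => p.1 (a p.2 : K) / p.1 (b p.2 : K)) Φ = 0}.ncard : ℝ) ≤
      C * T ^ ((k : ℝ)⁻¹) * T ^ (N - 1) := by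
    intro Φ hΦ
    refine (hCU Φ (hΦ2 Φ hΦ).1 T hT1 b fun j => (hb j).1).2.trans ?_
    refine mul_le_mul_of_nonneg_right (mul_le_mul_of_nonneg_left ?_ hC) (by positivity)
    refine le_trans ?_ (Nat.floor_le (by positivity : (0 : ℝ) ≤ T ^ ((k : ℝ)⁻¹)))
    exact_mod_cast (hΦ2 Φ hΦ).2
  refine (Finset.sum_le_sum h7).trans ?_
  rw [Finset.sum_const, nsmul_eq_mul]
  have h8 : (Φs.card : ℝ) ≤ T ^ ((k : ℝ)⁻¹) := by
    refine le_trans ?_ (Nat.floor_le (by positivity : (0 : ℝ) ≤ T ^ ((k : ℝ)⁻¹)))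
    exact_mod_cast hΦ1
  have h9 : (T : ℝ) ^ ((Module.finrank ℚ K * Fintype.card X : ℝ) - 1 + 2 * ((k : ℝ)⁻¹)) =
      T ^ ((k : ℝ)⁻¹) * T ^ ((k : ℝ)⁻¹) * T ^ (N - 1) := by
    rw [← Real.rpow_natCast T (N - 1), ← Real.rpow_add hTp, ← Real.rpow_add hTp]
    congr 1
    rw [Nat.cast_sub hN1, hN]
    push_cast
    ring
  rw [h9]
  calc (Φs.card : ℝ) * (C * T ^ ((k : ℝ)⁻¹) * T ^ (N - 1)) ≤
        T ^ ((k : ℝ)⁻¹) * (C * T ^ ((k : ℝ)⁻¹) * T ^ (N - 1)) := mul_le_mul_of_nonneg_right h8 (by positivity)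
    _ = _ := by ring

end Pool.Agent.N207.CF
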