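import Pool.Agent.N207.CF.Stm
import Pool.Agent.N207.GS.Mon

/-!
# Products of families with independent variables
-/

set_option autoImplicit false
set_option linter.unusedSectionVars false

open NumberField Filter Matrix

namespace Pool.Agent.N207.CF

open Pool.Agent.Y890.MV Pool.Agent.N207.GS

variable {E X σ : Type}

/-- the product of the sets -/
def prodU (U : E → Set (X → ℂ)) : Set (E × X → ℂ) := {z | ∀ e, (fun j => z (e, j)) ∈ U e}

/-- the functions on the product -/
def prodF (f : E → σ → (X → ℂ) → ℂ) : E × σ → (E × X → ℂ) → ℂ := fun q z => f q.1 q.2 fun j => z (q.1, j)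

theorem prodU_eq (U : E → Set (X → ℂ)) :
    prodU U = (fun w : E → X → ℂ => fun p : E × X => w p.1 p.2) '' Set.pi Set.univ U := by
  ext z
  constructor
  · intro hz
    exact ⟨fun e j => z (e, j), fun e _ => hz e, rfl⟩
  · rintro ⟨w, hw, rfl⟩ e
    exact hw e trivial

theorem prodU_conn {U : E → Set (X → ℂ)} (h : ∀ e, IsPreconnected (U e)) : IsPreconnected (prodU U) := by
  rw [prodU_eq]
  refine (isPreconnected_univ_pi h).image _ (Continuous.continuousOn ?_)
  fun_prop

theorem prodU_open [Finite E] {U : E → Set (X → ℂ)} (h : ∀ e, IsOpen (U e)) : IsOpen (prodU U) := by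
  have h1 : prodU U = ⋂ e, (fun z : E × X → ℂ => fun j => z (e, j)) ⁻¹' U e := by
    ext z
    simp [prodU]
  rw [h1]
  refine isOpen_iInter_of_finite fun e => (h e).preimage ?_
  fun_prop

theorem prodU_ne {U : E → Set (X → ℂ)} (h : ∀ e, (U e).Nonempty) : (prodU U).Nonempty := by
  choose w hw using h
  exact ⟨fun p => w p.1 p.2, fun e => hw e⟩

theorem prodF_an [Fintype E] [Fintype X] {U : E → Set (X → ℂ)} {f : E → σ → (X → ℂ) → ℂ}
    (h : ∀ e i, AnalyticOnNhd ℂ (f e i) (U e)) : ∀ q, AnalyticOnNhd ℂ (prodF f q) (prodU U) := by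
  rintro ⟨e, i⟩ z hz
  have h1 : AnalyticAt ℂ (fun z : E × X → ℂ => fun j => z (e, j)) z := by
    rw [analyticAt_pi_iff]
    intro j
    exact (ContinuousLinearMap.proj (R := ℂ) (φ := fun _ : E × X => ℂ) (e, j)).analyticAt z
  exact (h e i _ (hz e)).comp h1

theorem innerM_prod [Fintype E] [Fintype X] {U : E → Set (X → ℂ)} {k : ℕ} {z : E × X → ℂ}
    (h : ∀ e, (fun j => z (e, j)) ∈ InnerM (U e) k) : z ∈ InnerM (prodU U) k := by
  refine ⟨?_, ?_⟩
  · rw [pi_norm_le_iff_of_nonneg (Nat.cast_nonneg k)]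
    rintro ⟨e, j⟩
    exact (norm_le_pi_norm (fun j => z (e, j)) j).trans (h e).1
  · intro w hw e
    apply (h e).2
    rw [Metric.mem_ball] at hw ⊢
    refine lt_of_le_of_lt ?_ hw
    rw [dist_pi_le_iff dist_nonneg]
    intro j
    exact dist_le_pi_dist w z (e, j)

end Pool.Agent.N207.CF
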