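import Mathlib

/-!
# All conjugates of the fibres of families: statements of the parts
-/

set_option autoImplicit false

open NumberField

namespace Pool.Agent.N207.CF

/-- a set is irreducible if a product of two polynomials vanishes on it only if one of them does -/
def Irr {σ : Type} (S : Set (σ → ℂ)) : Prop :=
  ∀ P Q : MvPolynomial σ ℂ, (∀ a ∈ S, MvPolynomial.eval a P * MvPolynomial.eval a Q = 0) →
    (∀ a ∈ S, MvPolynomial.eval a P = 0) ∨ ∀ a ∈ S, MvPolynomial.eval a Q = 0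

/-- **IRR.** Products of irreducible sets are irreducible. -/
def StmIrr : Prop := ∀ (E σ : Type) [Finite E] (S : E → Set (σ → ℂ)), (∀ e, Irr (S e)) →
  Irr {a : E × σ → ℂ | ∀ e, (fun y => a (e, y)) ∈ S e}

/-- **FIB.** The product of the fibres of the Zariski closures of the graphs lies in the fibre of the Zariski closure of
the graph of the product. -/
def StmFib : Prop := ∀ (E X σ : Type) [Finite E] (U : E → Set (X → ℂ)) (f : E → σ → (X → ℂ) → ℂ) (x : E → X → ℂ)
  (a : E → σ → ℂ), (∀ e, x e ∈ U e) →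
  (∀ e, ∀ p : MvPolynomial σ (MvPolynomial X ℂ),
    (∀ z ∈ U e, p.eval₂ (MvPolynomial.eval z) (fun i => f e i z) = 0) →
      p.eval₂ (MvPolynomial.eval (x e)) (a e) = 0) →
  ∀ p : MvPolynomial (E × σ) (MvPolynomial (E × X) ℂ),
    (∀ z : E × X → ℂ, (∀ e, (fun j => z (e, j)) ∈ U e) →
      p.eval₂ (MvPolynomial.eval z) (fun q => f q.1 q.2 fun j => z (q.1, j)) = 0) →
    p.eval₂ (MvPolynomial.eval fun q => x q.1 q.2) (fun q => a q.1 q.2) = 0

/-- **UP.** The number of integral points of a number field `K` of house at most `T` at which a polynomial in all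
conjugates of the coordinates, divided by given denominators, vanishes. -/
def StmUp : Prop := ∀ (K X : Type) [Field K] [NumberField K] [Fintype X] [Nonempty X], ∃ C : ℝ, 0 ≤ C ∧
  ∀ Φ : MvPolynomial ((K →+* ℂ) × X) ℂ, Φ ≠ 0 → ∀ T : ℝ, 1 ≤ T → ∀ b : X → 𝓞 K, (∀ j, b j ≠ 0) →
    {a : X → 𝓞 K | (∀ j, house (a j : K) ≤ T) ∧
      MvPolynomial.eval (fun p => p.1 (a p.2 : K) / p.1 (b p.2 : K)) Φ = 0}.Finite ∧
    ({a : X → 𝓞 K | (∀ j, house (a j : K) ≤ T) ∧
      MvPolynomial.eval (fun p => p.1 (a p.2 : K) / p.1 (b p.2 : K)) Φ = 0}.ncard : ℝ) ≤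
        C * Φ.totalDegree * T ^ (Module.finrank ℚ K * Fintype.card X - 1)

/-- **LOW.** The number of integral points of house at most `T`. -/
def StmLow : Prop := ∀ (K X : Type) [Field K] [NumberField K] [Fintype X], ∃ c C : ℝ, 0 < c ∧ 0 < C ∧
  ∀ T : ℝ, 1 ≤ T → {a : X → 𝓞 K | ∀ j, house (a j : K) ≤ T}.Finite ∧
    c * T ^ (Module.finrank ℚ K * Fintype.card X) ≤ ({a : X → 𝓞 K | ∀ j, house (a j : K) ≤ T}.ncard : ℝ) ∧
    ({a : X → 𝓞 K | ∀ j, house (a j : K) ≤ T}.ncard : ℝ) ≤ C * T ^ (Module.finrank ℚ K * Fintype.card X)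

end Pool.Agent.N207.CF
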